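import Mathlib

/-!
# Continuity of sigma-stable maps for the two topologies of a random locally convex module
-/

open MeasureTheory Set Filter Topology

namespace Pool.Agent.Results.MP_6f9abf_an.TcContinuity


/-- The pointwise ring structure on classes of measurable functions. -/
noncomputable instance L0CommRing {Ω : Type*} [MeasurableSpace Ω] {P : Measure Ω}
    {R : Type*} [TopologicalSpace R] [CommRing R] [IsTopologicalRing R] :
    CommRing (Ω →ₘ[P] R) :=
  { (inferInstance : AddCommGroup (Ω →ₘ[P] R)), (inferInstance : CommMonoid (Ω →ₘ[P] R)) with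
    left_distrib := by
      intro a b c
      refine AEEqFun.ext ?_
      filter_upwards [AEEqFun.coeFn_mul a (b + c), AEEqFun.coeFn_add b c,
        AEEqFun.coeFn_add (a * b) (a * c), AEEqFun.coeFn_mul a b, AEEqFun.coeFn_mul a c]
        with ω h1 h2 h3 h4 h5
      erw [h1, h3]
      simp only [Pi.mul_apply, Pi.add_apply, h2, h4, h5, mul_add]
    right_distrib := by
      intro a b c
      refine AEEqFun.ext ?_
      filter_upwards [AEEqFun.coeFn_mul (a + b) c, AEEqFun.coeFn_add a b,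
        AEEqFun.coeFn_add (a * c) (b * c), AEEqFun.coeFn_mul a c, AEEqFun.coeFn_mul b c]
        with ω h1 h2 h3 h4 h5
      erw [h1, h3]
      simp only [Pi.mul_apply, Pi.add_apply, h2, h4, h5, add_mul]
    zero_mul := by
      intro a
      refine AEEqFun.ext ?_
      filter_upwards [AEEqFun.coeFn_mul 0 a, AEEqFun.coeFn_zero (α := Ω) (β := R) (μ := P)]
        with ω h1 h2
      erw [h1]
      rw [Pi.mul_apply, h2]
      simp
    mul_zero := by
      intro a
      refine AEEqFun.ext ?_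
      filter_upwards [AEEqFun.coeFn_mul a 0, AEEqFun.coeFn_zero (α := Ω) (β := R) (μ := P)]
        with ω h1 h2
      erw [h1]
      rw [Pi.mul_apply, h2]
      simp }

section Defs

variable {Ω : Type*} [MeasurableSpace Ω] {P : Measure Ω}

/-- The modulus `|ξ|` of a class `ξ ∈ L⁰(F, 𝕂)`. -/
noncomputable def modulus {𝕂 : Type*} [RCLike 𝕂] (ξ : Ω →ₘ[P] 𝕂) : Ω →ₘ[P] ℝ :=
  AEEqFun.comp (fun z : 𝕂 => ‖z‖) continuous_norm ξ

/-- The class in `L⁰(F, 𝕂)` of the indicator function of a measurable set `A`. -/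
noncomputable def ind (P : Measure Ω) (𝕂 : Type*) [RCLike 𝕂] (A : Set Ω)
    (hA : MeasurableSet A) : Ω →ₘ[P] 𝕂 :=
  AEEqFun.mk (A.indicator fun _ => (1 : 𝕂))
    ((measurable_const.indicator hA).aestronglyMeasurable)

/-- An `L⁰`-seminorm on an `L⁰(F, 𝕂)`-module `E`: a map `E → L⁰₊(F)` which is
`L⁰`-homogeneous and subadditive. -/
structure L0Seminorm (P : Measure Ω) (𝕂 : Type*) [RCLike 𝕂] (E : Type*) [AddCommGroup E]
    [Module (Ω →ₘ[P] 𝕂) E] where
  /-- the underlying map -/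
  toFun : E → (Ω →ₘ[P] ℝ)
  nonneg : ∀ x, 0 ≤ toFun x
  smul : ∀ (ξ : Ω →ₘ[P] 𝕂) (x : E), toFun (ξ • x) = modulus ξ * toFun x
  add_le : ∀ x y, toFun (x + y) ≤ toFun x + toFun y

/-- A countable measurable partition of `Ω` (finite partitions are padded by empty sets). -/
structure IsPartition (A : ℕ → Set Ω) : Prop where
  meas : ∀ n, MeasurableSet (A n)
  disj : Pairwise fun i j => Disjoint (A i) (A j)
  cover : ⋃ n, A n = univ

variable {𝕂 : Type*} [RCLike 𝕂] {E : Type*} [AddCommGroup E] [Module (Ω →ₘ[P] 𝕂) E]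

/-- `x` is the pasting of the sequence `x_n` along the partition `A`: `I_{A_n} x = I_{A_n} x_n`
for all `n`. -/
def IsPasting {A : ℕ → Set Ω} (hA : IsPartition A) (xs : ℕ → E) (x : E) : Prop :=
  ∀ n, ind P 𝕂 (A n) (hA.meas n) • x = ind P 𝕂 (A n) (hA.meas n) • xs n

/-- The module `E` is sigma-stable: all countable pastings exist. -/
def ModuleSigmaStable (P : Measure Ω) (𝕂 : Type*) [RCLike 𝕂] (E : Type*) [AddCommGroup E]
    [Module (Ω →ₘ[P] 𝕂) E] : Prop :=
  ∀ (A : ℕ → Set Ω) (hA : IsPartition A) (xs : ℕ → E), ∃ x, IsPasting (P := P) (𝕂 := 𝕂) hA xs x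

/-- `‖x‖_Q`, the supremum of `‖x‖` over the finite family `Q` (and `0` if `Q` is empty). -/
noncomputable def qnorm (Q : Finset (L0Seminorm P 𝕂 E)) (x : E) : Ω →ₘ[P] ℝ :=
  Q.fold (· ⊔ ·) 0 fun N => N.toFun x

/-- The family `S` of `L⁰`-seminorms is separating: `⋁_{N ∈ S} N x = 0` forces `x = 0`. -/
def Separating (S : Set (L0Seminorm P 𝕂 E)) : Prop :=
  ∀ x : E, (∀ N ∈ S, N.toFun x = 0) → x = 0

/-- The family `S` is sigma-stable: for every partition `(A_n)` and every sequence `(Q_n)` of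
(nonempty) finite subfamilies, the seminorm `∑ I_{A_n} ‖·‖_{Q_n}` belongs to `S`. -/
def FamilySigmaStable (S : Set (L0Seminorm P 𝕂 E)) : Prop :=
  ∀ (A : ℕ → Set Ω) (hA : IsPartition A) (Q : ℕ → Finset (L0Seminorm P 𝕂 E)),
    (∀ n, (Q n).Nonempty ∧ (↑(Q n) : Set (L0Seminorm P 𝕂 E)) ⊆ S) →
    ∃ N ∈ S, ∀ (x : E) (n : ℕ),
      ind P ℝ (A n) (hA.meas n) * N.toFun x = ind P ℝ (A n) (hA.meas n) * qnorm (Q n) x

/-- A subset `G` of `E` is sigma-stable: it contains all pastings of its sequences. -/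
def SetSigmaStable (P : Measure Ω) (𝕂 : Type*) [RCLike 𝕂] {E : Type*} [AddCommGroup E]
    [Module (Ω →ₘ[P] 𝕂) E] (G : Set E) : Prop :=
  ∀ (A : ℕ → Set Ω) (hA : IsPartition A) (xs : ℕ → E) (x : E), (∀ n, xs n ∈ G) →
    IsPasting (P := P) (𝕂 := 𝕂) hA xs x → x ∈ G

/-- A map `f : G → G` is sigma-stable: it maps the pasting of `x_n` to the pasting of `f x_n`. -/
def MapSigmaStable (P : Measure Ω) (𝕂 : Type*) [RCLike 𝕂] {E : Type*} [AddCommGroup E]
    [Module (Ω →ₘ[P] 𝕂) E] {G : Set E} (f : G → G) : Prop :=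
  ∀ (A : ℕ → Set Ω) (hA : IsPartition A) (xs : ℕ → G) (x : G),
    IsPasting (P := P) (𝕂 := 𝕂) hA (fun n => (xs n : E)) (x : E) →
    IsPasting (P := P) (𝕂 := 𝕂) hA (fun n => (f (xs n) : E)) (f x : E)

/-- Basic neighbourhood of `0` for `T_{ε,λ}`: the set `{x : P(‖x‖_Q < ε) > 1 - λ}`. -/
def nbhdProb (Q : Finset (L0Seminorm P 𝕂 E)) (ε lam : ℝ) : Set E :=
  {x | 1 - lam < (P {ω | qnorm Q x ω < ε}).toReal}

/-- Basic neighbourhood of `0` for `T_c`: the set `{x : ‖x‖_Q < ε a.s.}`, with `ε ∈ L⁰₊₊`. -/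
def nbhdC (Q : Finset (L0Seminorm P 𝕂 E)) (ε : Ω →ₘ[P] ℝ) : Set E :=
  {x | ∀ᵐ ω ∂P, qnorm Q x ω < ε ω}

end Defs

section Basic

variable {Ω : Type*} [MeasurableSpace Ω] {P : Measure Ω}
variable {𝕂 : Type*} [RCLike 𝕂] {E : Type*} [AddCommGroup E] [Module (Ω →ₘ[P] 𝕂) E]

lemma modulus_coe (ξ : Ω →ₘ[P] 𝕂) : ∀ᵐ ω ∂P, modulus ξ ω = ‖ξ ω‖ := by
  filter_upwards [AEEqFun.coeFn_comp (fun z : 𝕂 => ‖z‖) continuous_norm ξ] with ω hω
  exact hω

lemma ind_coe {A : Set Ω} (hA : MeasurableSet A) :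
    ∀ᵐ ω ∂P, ind P 𝕂 A hA ω = A.indicator (fun _ => (1 : 𝕂)) ω := by
  exact AEEqFun.coeFn_mk _ _

lemma modulus_ind {A : Set Ω} (hA : MeasurableSet A) : modulus (ind P 𝕂 A hA) = ind P ℝ A hA := by
  apply AEEqFun.ext
  filter_upwards [modulus_coe (ind P 𝕂 A hA), ind_coe (P := P) (𝕂 := 𝕂) hA,
    ind_coe (P := P) (𝕂 := ℝ) hA] with ω h1 h2 h3
  rw [h1, h2, h3]
  by_cases h : ω ∈ A <;> simp [h]

lemma L0Seminorm.zero (N : L0Seminorm P 𝕂 E) : N.toFun 0 = 0 := by
  have h := N.smul 0 0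
  rw [smul_zero] at h
  rw [h]
  apply AEEqFun.ext
  filter_upwards [AEEqFun.coeFn_mul (modulus (0 : Ω →ₘ[P] 𝕂)) (N.toFun 0),
    modulus_coe (0 : Ω →ₘ[P] 𝕂), AEEqFun.coeFn_zero (α := Ω) (β := 𝕂) (μ := P),
    AEEqFun.coeFn_zero (α := Ω) (β := ℝ) (μ := P)] with ω h1 h2 h3 h4
  rw [h1, Pi.mul_apply, h2, h3, h4]
  simp

lemma L0Seminorm.neg (N : L0Seminorm P 𝕂 E) (x : E) : N.toFun (-x) = N.toFun x := by
  have h := N.smul (-1) x
  rw [neg_smul, one_smul] at h
  rw [h]
  apply AEEqFun.ext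
  filter_upwards [AEEqFun.coeFn_mul (modulus (-1 : Ω →ₘ[P] 𝕂)) (N.toFun x),
    modulus_coe (-1 : Ω →ₘ[P] 𝕂), AEEqFun.coeFn_neg (1 : Ω →ₘ[P] 𝕂),
    AEEqFun.coeFn_one (α := Ω) (β := 𝕂) (μ := P)] with ω h1 h2 h3 h4
  rw [h1, Pi.mul_apply, h2, h3, Pi.neg_apply, h4]
  simp

lemma qnorm_lt_iff (Q : Finset (L0Seminorm P 𝕂 E)) (x : E) :
    ∀ᵐ ω ∂P, ∀ r : ℝ, 0 < r → (qnorm Q x ω < r ↔ ∀ N ∈ Q, N.toFun x ω < r) := by
  classical
  induction Q using Finset.induction_on with
  | empty =>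
    filter_upwards [AEEqFun.coeFn_zero (α := Ω) (β := ℝ) (μ := P)] with ω hω r hr
    simp only [qnorm, Finset.fold_empty, Finset.notMem_empty, false_imp_iff, implies_true, iff_true]
    rw [hω]
    exact hr
  | insert N Q hN ih =>
    filter_upwards [ih, AEEqFun.coeFn_sup (N.toFun x) (qnorm Q x)] with ω h1 h2 r hr
    have h3 : qnorm (insert N Q) x = N.toFun x ⊔ qnorm Q x := by
      simp only [qnorm]
      rw [Finset.fold_insert hN]
    rw [h3, h2, Finset.forall_mem_insert, ← h1 r hr]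
    exact sup_lt_iff

lemma nonneg_coe (N : L0Seminorm P 𝕂 E) (x : E) : ∀ᵐ ω ∂P, 0 ≤ N.toFun x ω := by
  filter_upwards [AEEqFun.coeFn_le.2 (N.nonneg x),
    AEEqFun.coeFn_zero (α := Ω) (β := ℝ) (μ := P)] with ω h1 h2
  rw [h2] at h1
  exact h1

lemma add_coe (N : L0Seminorm P 𝕂 E) (x y : E) :
    ∀ᵐ ω ∂P, N.toFun (x + y) ω ≤ N.toFun x ω + N.toFun y ω := by
  filter_upwards [AEEqFun.coeFn_le.2 (N.add_le x y),
    AEEqFun.coeFn_add (N.toFun x) (N.toFun y)] with ω h1 h2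
  rw [h2] at h1
  exact h1

lemma ae_all_finset {p : L0Seminorm P 𝕂 E → Ω → Prop} (Q : Finset (L0Seminorm P 𝕂 E))
    (h : ∀ N ∈ Q, ∀ᵐ ω ∂P, p N ω) : ∀ᵐ ω ∂P, ∀ N ∈ Q, p N ω := by
  have := (ae_ball_iff (μ := P) (S := (↑Q : Set (L0Seminorm P 𝕂 E))) Q.countable_toSet
    (p := fun ω N _ => p N ω)).2 h
  filter_upwards [this] with ω hω N hN
  exact hω N hN

lemma qnorm_add (Q : Finset (L0Seminorm P 𝕂 E)) (x y : E) :
    ∀ᵐ ω ∂P, ∀ r s : ℝ, 0 < r → 0 < s → qnorm Q x ω < r → qnorm Q y ω < s →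
      qnorm Q (x + y) ω < r + s := by
  have h := ae_all_finset (P := P) (𝕂 := 𝕂) (E := E)
    (p := fun N ω => N.toFun (x + y) ω ≤ N.toFun x ω + N.toFun y ω) Q
    (fun N _ => add_coe N x y)
  filter_upwards [h, qnorm_lt_iff Q x, qnorm_lt_iff Q y, qnorm_lt_iff Q (x + y)]
    with ω h0 h1 h2 h3 r s hr hs hx hy
  rw [h3 (r + s) (add_pos hr hs)]
  intro N hN
  have a := (h1 r hr).1 hx N hN
  have b := (h2 s hs).1 hy N hN
  have c := h0 N hN
  linarith

lemma qnorm_zero (Q : Finset (L0Seminorm P 𝕂 E)) :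
    ∀ᵐ ω ∂P, ∀ r : ℝ, 0 < r → qnorm Q (0 : E) ω < r := by
  have h := ae_all_finset (P := P) (𝕂 := 𝕂) (E := E)
    (p := fun N ω => N.toFun 0 ω = 0) Q
    (fun N _ => by
      rw [N.zero]
      exact AEEqFun.coeFn_zero (α := Ω) (β := ℝ) (μ := P))
  filter_upwards [h, qnorm_lt_iff Q (0 : E)] with ω h0 h1 r hr
  rw [h1 r hr]
  intro N hN
  rw [h0 N hN]
  exact hr

lemma qnorm_neg (Q : Finset (L0Seminorm P 𝕂 E)) (x : E) : qnorm Q (-x) = qnorm Q x := by
  simp only [qnorm]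
  congr 1
  ext1 N
  exact N.neg x

lemma qnorm_mono {Q Q' : Finset (L0Seminorm P 𝕂 E)} (h : Q ⊆ Q') (x : E) :
    ∀ᵐ ω ∂P, ∀ r : ℝ, 0 < r → qnorm Q' x ω < r → qnorm Q x ω < r := by
  filter_upwards [qnorm_lt_iff Q x, qnorm_lt_iff Q' x] with ω h1 h2 r hr h3
  rw [h1 r hr]
  intro N hN
  exact (h2 r hr).1 h3 N (h hN)

lemma qnorm_coe (Q : Finset (L0Seminorm P 𝕂 E)) (x : E) :
    ∀ᵐ ω ∂P, qnorm Q x ω = Q.fold (fun a b : ℝ => a ⊔ b) 0 (fun N => N.toFun x ω) := by
  classical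
  induction Q using Finset.induction_on with
  | empty =>
    filter_upwards [AEEqFun.coeFn_zero (α := Ω) (β := ℝ) (μ := P)] with ω hω
    simp only [qnorm, Finset.fold_empty]
    rw [hω]
    try rfl
  | insert N Q hN ih =>
    filter_upwards [ih, AEEqFun.coeFn_sup (N.toFun x) (qnorm Q x)] with ω h1 h2
    have h3 : qnorm (insert N Q) x = N.toFun x ⊔ qnorm Q x := by
      simp only [qnorm]
      rw [Finset.fold_insert hN]
    rw [h3, h2, Finset.fold_insert hN, h1]

/-- Locality of `L⁰`-seminorms. -/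
lemma local_seminorm {A : Set Ω} (hA : MeasurableSet A) {u v : E}
    (h : ind P 𝕂 A hA • u = ind P 𝕂 A hA • v) (N : L0Seminorm P 𝕂 E) :
    ∀ᵐ ω ∂P, ω ∈ A → N.toFun u ω = N.toFun v ω := by
  have h1 := N.smul (ind P 𝕂 A hA) u
  have h2 := N.smul (ind P 𝕂 A hA) v
  rw [h, h2, modulus_ind] at h1
  filter_upwards [AEEqFun.coeFn_mul (ind P ℝ A hA) (N.toFun v),
    AEEqFun.coeFn_mul (ind P ℝ A hA) (N.toFun u), ind_coe (P := P) (𝕂 := ℝ) hA] with ω a b c hω
  rw [h1, b, Pi.mul_apply, Pi.mul_apply, c] at a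
  simpa [hω] using a

lemma local_qnorm {A : Set Ω} (hA : MeasurableSet A) {u v : E}
    (h : ind P 𝕂 A hA • u = ind P 𝕂 A hA • v) (Q : Finset (L0Seminorm P 𝕂 E)) :
    ∀ᵐ ω ∂P, ω ∈ A → qnorm Q u ω = qnorm Q v ω := by
  have h1 := ae_all_finset (P := P) (𝕂 := 𝕂) (E := E)
    (p := fun N ω => ω ∈ A → N.toFun u ω = N.toFun v ω) Q (fun N _ => local_seminorm hA h N)
  filter_upwards [h1, qnorm_coe Q u, qnorm_coe Q v] with ω a b c hω
  rw [b, c]
  exact Finset.fold_congr fun N hN => a N hN hω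

lemma measurableSet_qlt (Q : Finset (L0Seminorm P 𝕂 E)) (x : E) (ε : ℝ) :
    MeasurableSet {ω | qnorm Q x ω < ε} :=
  measurableSet_lt (AEEqFun.measurable _) measurable_const

lemma real_mono_ae [IsFiniteMeasure P] {s t : Set Ω} (h : ∀ᵐ ω ∂P, ω ∈ s → ω ∈ t) :
    (P s).toReal ≤ (P t).toReal :=
  ENNReal.toReal_mono (measure_ne_top _ _) (measure_mono_ae h)

lemma inter_lower [IsProbabilityMeasure P] {s t : Set Ω} (ht : MeasurableSet t) :
    (P s).toReal + (P t).toReal - 1 ≤ (P (s ∩ t)).toReal := by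
  have h1 := measure_union_add_inter (μ := P) s ht
  have h2 : (P (s ∪ t)).toReal + (P (s ∩ t)).toReal = (P s).toReal + (P t).toReal := by
    rw [← ENNReal.toReal_add (measure_ne_top _ _) (measure_ne_top _ _),
      ← ENNReal.toReal_add (measure_ne_top _ _) (measure_ne_top _ _), h1]
  have h3 : (P (s ∪ t)).toReal ≤ 1 := by
    have : P (s ∪ t) ≤ 1 := prob_le_one
    exact ENNReal.toReal_le_of_le_ofReal zero_le_one (by simpa using this)
  linarith

end Basic

section Topologies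

variable {Ω : Type*} [MeasurableSpace Ω] {P : Measure Ω} [IsProbabilityMeasure P]
variable {𝕂 : Type*} [RCLike 𝕂] {E : Type*} [AddCommGroup E] [Module (Ω →ₘ[P] 𝕂) E]

/-- The neighbourhood base at `0` of `T_{ε,λ}`: all sets `{x : P(‖x‖_Q < ε) > 1 - λ}` with
`Q ⊆ S` finite, `ε > 0` and `0 < λ < 1`. -/
@[instance_reducible]
noncomputable def basisProb (S : Set (L0Seminorm P 𝕂 E)) : AddGroupFilterBasis E where
  sets := {U | ∃ (Q : Finset (L0Seminorm P 𝕂 E)) (ε lam : ℝ),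
    (↑Q : Set (L0Seminorm P 𝕂 E)) ⊆ S ∧ 0 < ε ∧ 0 < lam ∧ lam < 1 ∧ U = nbhdProb Q ε lam}
  nonempty := ⟨nbhdProb ∅ 1 (1 / 2), ∅, 1, 1 / 2, by simp, by norm_num, by norm_num,
    by norm_num, rfl⟩
  inter_sets := by
    classical
    rintro _ _ ⟨Q1, e1, l1, hQ1, he1, hl1, hl1', rfl⟩ ⟨Q2, e2, l2, hQ2, he2, hl2, hl2', rfl⟩
    refine ⟨nbhdProb (Q1 ∪ Q2) (min e1 e2) (min l1 l2),
      ⟨Q1 ∪ Q2, min e1 e2, min l1 l2, ?_, lt_min he1 he2, lt_min hl1 hl2,
        lt_of_le_of_lt (min_le_left _ _) hl1', rfl⟩, ?_⟩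
    · rw [Finset.coe_union]
      exact union_subset hQ1 hQ2
    · intro x hx
      have hpos : 0 < min e1 e2 := lt_min he1 he2
      have hx' : 1 - min l1 l2 < (P {ω | qnorm (Q1 ∪ Q2) x ω < min e1 e2}).toReal := hx
      constructor
      · show 1 - l1 < (P {ω | qnorm Q1 x ω < e1}).toReal
        have : (P {ω | qnorm (Q1 ∪ Q2) x ω < min e1 e2}).toReal
            ≤ (P {ω | qnorm Q1 x ω < e1}).toReal := by
          apply real_mono_ae
          filter_upwards [qnorm_mono (Finset.subset_union_left (s₁ := Q1) (s₂ := Q2)) x]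
            with ω h1 h2
          exact lt_of_lt_of_le (h1 _ hpos h2) (min_le_left _ _)
        have := min_le_left l1 l2
        linarith
      · show 1 - l2 < (P {ω | qnorm Q2 x ω < e2}).toReal
        have : (P {ω | qnorm (Q1 ∪ Q2) x ω < min e1 e2}).toReal
            ≤ (P {ω | qnorm Q2 x ω < e2}).toReal := by
          apply real_mono_ae
          filter_upwards [qnorm_mono (Finset.subset_union_right (s₁ := Q1) (s₂ := Q2)) x]
            with ω h1 h2
          exact lt_of_lt_of_le (h1 _ hpos h2) (min_le_right _ _)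
        have := min_le_right l1 l2
        linarith
  zero' := by
    rintro _ ⟨Q, e, l, -, he, hl, -, rfl⟩
    show 1 - l < (P {ω | qnorm Q (0 : E) ω < e}).toReal
    have : P {ω | qnorm Q (0 : E) ω < e} = 1 := by
      rw [prob_compl_eq_zero_iff (measurableSet_qlt Q 0 e) |>.symm]
      have := qnorm_zero (P := P) (𝕂 := 𝕂) (E := E) Q
      filter_upwards [this] with ω hω
      exact hω e he
    rw [this]
    simp [hl]
  add' := by
    rintro _ ⟨Q, e, l, hQ, he, hl, hl1, rfl⟩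
    refine ⟨nbhdProb Q (e / 2) (l / 2), ⟨Q, e / 2, l / 2, hQ, by linarith, by linarith,
      by linarith, rfl⟩, ?_⟩
    rintro _ ⟨x, hx, y, hy, rfl⟩
    have hx' : 1 - l / 2 < (P {ω | qnorm Q x ω < e / 2}).toReal := hx
    have hy' : 1 - l / 2 < (P {ω | qnorm Q y ω < e / 2}).toReal := hy
    show 1 - l < (P {ω | qnorm Q (x + y) ω < e}).toReal
    have h1 := inter_lower (P := P) (s := {ω | qnorm Q x ω < e / 2})
      (measurableSet_qlt Q y (e / 2))
    have h2 : (P ({ω | qnorm Q x ω < e / 2} ∩ {ω | qnorm Q y ω < e / 2})).toReal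
        ≤ (P {ω | qnorm Q (x + y) ω < e}).toReal := by
      apply real_mono_ae
      filter_upwards [qnorm_add Q x y] with ω h3 h4
      have := h3 (e / 2) (e / 2) (by linarith) (by linarith) h4.1 h4.2
      rw [add_halves] at this
      exact this
    linarith
  neg' := by
    rintro _ ⟨Q, e, l, hQ, he, hl, hl1, rfl⟩
    refine ⟨nbhdProb Q e l, ⟨Q, e, l, hQ, he, hl, hl1, rfl⟩, ?_⟩
    intro x hx
    show 1 - l < (P {ω | qnorm Q (-x) ω < e}).toReal
    rw [qnorm_neg]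
    exact hx
  conj' := by
    intro x₀ U hU
    refine ⟨U, hU, ?_⟩
    intro x hx
    show x₀ + x + -x₀ ∈ U
    have : x₀ + x + -x₀ = x := by abel
    rw [this]
    exact hx

/-- The neighbourhood base at `0` of `T_c`: all sets `{x : ‖x‖_Q < ε a.s.}` with `Q ⊆ S` finite
and `ε ∈ L⁰₊₊(F)`. -/
@[instance_reducible]
noncomputable def basisC (S : Set (L0Seminorm P 𝕂 E)) : AddGroupFilterBasis E where
  sets := {U | ∃ (Q : Finset (L0Seminorm P 𝕂 E)) (ε : Ω →ₘ[P] ℝ),
    (↑Q : Set (L0Seminorm P 𝕂 E)) ⊆ S ∧ (∀ᵐ ω ∂P, 0 < ε ω) ∧ U = nbhdC Q ε}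
  nonempty := ⟨nbhdC ∅ 1, ∅, 1, by simp, by
    filter_upwards [AEEqFun.coeFn_one (α := Ω) (β := ℝ) (μ := P)] with ω hω
    rw [hω]; simp, rfl⟩
  inter_sets := by
    classical
    rintro _ _ ⟨Q1, e1, hQ1, he1, rfl⟩ ⟨Q2, e2, hQ2, he2, rfl⟩
    refine ⟨nbhdC (Q1 ∪ Q2) (e1 ⊓ e2), ⟨Q1 ∪ Q2, e1 ⊓ e2, ?_, ?_, rfl⟩, ?_⟩
    · rw [Finset.coe_union]
      exact union_subset hQ1 hQ2
    · filter_upwards [he1, he2, AEEqFun.coeFn_inf e1 e2] with ω h1 h2 h3
      rw [h3]
      exact lt_min h1 h2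
    · intro x hx
      have hx' : ∀ᵐ ω ∂P, qnorm (Q1 ∪ Q2) x ω < (e1 ⊓ e2 : Ω →ₘ[P] ℝ) ω := hx
      constructor
      · show ∀ᵐ ω ∂P, qnorm Q1 x ω < e1 ω
        filter_upwards [hx', he1, he2, AEEqFun.coeFn_inf e1 e2,
          qnorm_mono (Finset.subset_union_left (s₁ := Q1) (s₂ := Q2)) x] with ω a b c d e
        rw [d] at a
        exact lt_of_lt_of_le (e _ (lt_min b c) a) (min_le_left _ _)
      · show ∀ᵐ ω ∂P, qnorm Q2 x ω < e2 ω
        filter_upwards [hx', he1, he2, AEEqFun.coeFn_inf e1 e2,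
          qnorm_mono (Finset.subset_union_right (s₁ := Q1) (s₂ := Q2)) x] with ω a b c d e
        rw [d] at a
        exact lt_of_lt_of_le (e _ (lt_min b c) a) (min_le_right _ _)
  zero' := by
    rintro _ ⟨Q, e, -, he, rfl⟩
    show ∀ᵐ ω ∂P, qnorm Q (0 : E) ω < e ω
    filter_upwards [he, qnorm_zero (P := P) (𝕂 := 𝕂) (E := E) Q] with ω h1 h2
    exact h2 _ h1
  add' := by
    rintro _ ⟨Q, e, hQ, he, rfl⟩
    refine ⟨nbhdC Q ((1 / 2 : ℝ) • e), ⟨Q, (1 / 2 : ℝ) • e, hQ, ?_, rfl⟩, ?_⟩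
    · filter_upwards [he, AEEqFun.coeFn_smul (1 / 2 : ℝ) e] with ω h1 h2
      rw [h2, Pi.smul_apply, smul_eq_mul]
      linarith
    · rintro _ ⟨x, hx, y, hy, rfl⟩
      have hx' : ∀ᵐ ω ∂P, qnorm Q x ω < ((1 / 2 : ℝ) • e : Ω →ₘ[P] ℝ) ω := hx
      have hy' : ∀ᵐ ω ∂P, qnorm Q y ω < ((1 / 2 : ℝ) • e : Ω →ₘ[P] ℝ) ω := hy
      show ∀ᵐ ω ∂P, qnorm Q (x + y) ω < e ω
      filter_upwards [hx', hy', he, AEEqFun.coeFn_smul (1 / 2 : ℝ) e, qnorm_add Q x y]
        with ω a b c d f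
      rw [d, Pi.smul_apply, smul_eq_mul] at a b
      have := f (1 / 2 * e ω) (1 / 2 * e ω) (by linarith) (by linarith) a b
      linarith
  neg' := by
    rintro _ ⟨Q, e, hQ, he, rfl⟩
    refine ⟨nbhdC Q e, ⟨Q, e, hQ, he, rfl⟩, ?_⟩
    intro x hx
    show ∀ᵐ ω ∂P, qnorm Q (-x) ω < e ω
    rw [qnorm_neg]
    exact hx
  conj' := by
    intro x₀ U hU
    refine ⟨U, hU, ?_⟩
    intro x hx
    show x₀ + x + -x₀ ∈ U
    have : x₀ + x + -x₀ = x := by abel
    rw [this]
    exact hx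

/-- The `(ε, λ)`-topology `T_{ε,λ}` induced by the family `S`. -/
@[instance_reducible]
noncomputable def topProb (S : Set (L0Seminorm P 𝕂 E)) : TopologicalSpace E :=
  (basisProb S).topology

/-- The locally `L⁰`-convex topology `T_c` induced by the family `S`. -/
@[instance_reducible]
noncomputable def topC (S : Set (L0Seminorm P 𝕂 E)) : TopologicalSpace E :=
  (basisC S).topology

end Topologies

section Cont

lemma cont_iff {E : Type*} [AddCommGroup E] (B : AddGroupFilterBasis E) {G : Set E} (f : G → G) :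
    (@Continuous G G (B.topology.induced Subtype.val) (B.topology.induced Subtype.val) f) ↔
      ∀ x : G, ∀ V ∈ B, ∃ U ∈ B, ∀ y : G, ((y : E) - x) ∈ U → ((f y : E) - f x) ∈ V := by
  let _ : TopologicalSpace E := B.topology
  have hb : ∀ x : G, (@nhds G (B.topology.induced Subtype.val) x).HasBasis (fun V => V ∈ B)
      (fun V => Subtype.val ⁻¹' ((fun y => (x : E) + y) '' V)) := by
    intro x
    rw [nhds_induced]
    exact (AddGroupFilterBasis.nhds_hasBasis B (x : E)).comap _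
  have hmem : ∀ (x y : G) (V : Set E),
      y ∈ (Subtype.val ⁻¹' ((fun y => (x : E) + y) '' V) : Set G) ↔ ((y : E) - x) ∈ V := by
    intro x y V
    constructor
    · rintro ⟨z, hz, hzy⟩
      have : z = (y : E) - x := by
        rw [← hzy]
        simp
      rw [← this]
      exact hz
    · intro h
      exact ⟨_, h, by simp⟩
  let τG : TopologicalSpace G := B.topology.induced Subtype.val
  rw [continuous_iff_continuousAt]
  refine forall_congr' fun x => ?_
  rw [ContinuousAt, (hb x).tendsto_iff (hb (f x))]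
  refine forall_congr' fun V => forall_congr' fun _ => exists_congr fun U =>
    and_congr Iff.rfl (forall_congr' fun y => ?_)
  rw [hmem, hmem]

end Cont

section Main

variable {Ω : Type*} [MeasurableSpace Ω] {P : Measure Ω} [IsProbabilityMeasure P]
variable {𝕂 : Type*} [RCLike 𝕂] {E : Type*} [AddCommGroup E] [Module (Ω →ₘ[P] 𝕂) E]

/-- The bad set of `y`: where `‖f y - f x‖_Q < ε` fails. -/
def bad {G : Set E} (f : G → G) (Q : Finset (L0Seminorm P 𝕂 E)) (ε : Ω →ₘ[P] ℝ) (x y : G) :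
    Set Ω :=
  {ω | ε ω ≤ qnorm Q ((f y : E) - f x) ω}

lemma measurableSet_bad {G : Set E} (f : G → G) (Q : Finset (L0Seminorm P 𝕂 E))
    (ε : Ω →ₘ[P] ℝ) (x y : G) : MeasurableSet (bad f Q ε x y) :=
  measurableSet_le (AEEqFun.measurable _) (AEEqFun.measurable _)

/-- existence of pastings inside `G` -/
lemma exists_pasting (hE : ModuleSigmaStable P 𝕂 E) {G : Set E} (hG : SetSigmaStable P 𝕂 G)
    {A : ℕ → Set Ω} (hA : IsPartition A) (xs : ℕ → G) :
    ∃ y : G, IsPasting (P := P) (𝕂 := 𝕂) hA (fun n => (xs n : E)) (y : E) := by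
  obtain ⟨y, hy⟩ := hE A hA (fun n => (xs n : E))
  exact ⟨⟨y, hG A hA _ y (fun n => (xs n).2) hy⟩, hy⟩

lemma pasting_sub {A : ℕ → Set Ω} {hA : IsPartition A} {xs : ℕ → E} {y : E}
    (h : IsPasting (P := P) (𝕂 := 𝕂) hA xs y) (x : E) (n : ℕ) :
    ind P 𝕂 (A n) (hA.meas n) • (y - x) = ind P 𝕂 (A n) (hA.meas n) • (xs n - x) := by
  rw [smul_sub, smul_sub, h n]

lemma pasting_close {A : ℕ → Set Ω} {hA : IsPartition A} {xs : ℕ → E} {y : E}
    (h : IsPasting (P := P) (𝕂 := 𝕂) hA xs y) (x : E) (Q : Finset (L0Seminorm P 𝕂 E)) :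
    ∀ᵐ ω ∂P, ∀ n, ω ∈ A n → qnorm Q (y - x) ω = qnorm Q (xs n - x) ω := by
  rw [ae_all_iff]
  intro n
  exact local_qnorm (hA.meas n) (pasting_sub h x n) Q

/-- Pasting lemma: countably many points close to `x` can be pasted to a point close to `x` whose
bad set contains all the bad sets. -/
lemma paste_bad (hE : ModuleSigmaStable P 𝕂 E) {G : Set E} (hG : SetSigmaStable P 𝕂 G)
    {f : G → G} (hf : MapSigmaStable P 𝕂 f) (Q Q' : Finset (L0Seminorm P 𝕂 E))
    (ε : Ω →ₘ[P] ℝ) (x : G) {δ : ℝ} (hδ : 0 < δ) (ys : ℕ → G)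
    (hys : ∀ k, ∀ᵐ ω ∂P, qnorm Q' ((ys k : E) - x) ω < δ) :
    ∃ y : G, (∀ᵐ ω ∂P, qnorm Q' ((y : E) - x) ω < δ) ∧
      ∀ k, ∀ᵐ ω ∂P, ω ∈ bad f Q ε x (ys k) → ω ∈ bad f Q ε x y := by
  classical
  let B : ℕ → Set Ω := fun k => bad f Q ε x (ys k)
  have hBm : ∀ k, MeasurableSet (B k) := fun k => measurableSet_bad f Q ε x (ys k)
  let A : ℕ → Set Ω := fun n => match n with
    | 0 => (⋃ k, B k)ᶜ
    | (k + 1) => disjointed B k
  have hA : IsPartition A := by
    constructor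
    · intro n
      match n with
      | 0 => exact (MeasurableSet.iUnion hBm).compl
      | (k + 1) => exact MeasurableSet.disjointed hBm k
    · intro i j hij
      match i, j with
      | 0, 0 => exact absurd rfl hij
      | 0, (j + 1) =>
        show Disjoint (⋃ k, B k)ᶜ (disjointed B j)
        rw [Set.disjoint_left]
        intro ω h1 h2
        exact h1 (mem_iUnion.2 ⟨j, disjointed_subset B j h2⟩)
      | (i + 1), 0 =>
        show Disjoint (disjointed B i) (⋃ k, B k)ᶜ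
        rw [Set.disjoint_left]
        intro ω h2 h1
        exact h1 (mem_iUnion.2 ⟨i, disjointed_subset B i h2⟩)
      | (i + 1), (j + 1) =>
        exact disjoint_disjointed B (fun h => hij (by rw [h]))
    · apply eq_univ_of_forall
      intro ω
      by_cases h : ω ∈ ⋃ k, B k
      · rw [← iUnion_disjointed] at h
        obtain ⟨k, hk⟩ := mem_iUnion.1 h
        exact mem_iUnion.2 ⟨k + 1, hk⟩
      · exact mem_iUnion.2 ⟨0, h⟩
  let xs : ℕ → G := fun n => match n with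
    | 0 => x
    | (k + 1) => ys k
  obtain ⟨y, hy⟩ := exists_pasting (P := P) (𝕂 := 𝕂) hE hG hA xs
  have hfy := hf A hA xs y hy
  refine ⟨y, ?_, ?_⟩
  · have h1 := pasting_close (P := P) (𝕂 := 𝕂) hy (x : E) Q'
    have h2 := (ae_all_iff (μ := P)).2 hys
    filter_upwards [h1, h2, qnorm_zero (P := P) (𝕂 := 𝕂) (E := E) Q'] with ω a b c
    have hω : ω ∈ ⋃ n, A n := by rw [hA.cover]; trivial
    obtain ⟨n, hn⟩ := mem_iUnion.1 hω
    rw [a n hn]
    match n with
    | 0 =>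
      show qnorm Q' ((x : E) - x) ω < δ
      rw [sub_self]
      exact c δ hδ
    | (k + 1) => exact b k
  · intro k
    have h1 := pasting_close (P := P) (𝕂 := 𝕂) hfy (f x : E) Q
    filter_upwards [h1] with ω a hω
    have h3 : ω ∈ ⋃ k, disjointed B k := by
      rw [iUnion_disjointed]
      exact mem_iUnion.2 ⟨k, hω⟩
    obtain ⟨j, hj⟩ := mem_iUnion.1 h3
    have h4 := a (j + 1) hj
    show ε ω ≤ qnorm Q ((f y : E) - f x) ω
    rw [h4]
    exact disjointed_subset B j hj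

/-- There is a point close to `x` whose bad set essentially contains all bad sets of points
close to `x`. -/
lemma exists_max_bad (hE : ModuleSigmaStable P 𝕂 E) {G : Set E} (hG : SetSigmaStable P 𝕂 G)
    {f : G → G} (hf : MapSigmaStable P 𝕂 f) (Q Q' : Finset (L0Seminorm P 𝕂 E))
    (ε : Ω →ₘ[P] ℝ) (x : G) {δ : ℝ} (hδ : 0 < δ) :
    ∃ y : G, (∀ᵐ ω ∂P, qnorm Q' ((y : E) - x) ω < δ) ∧
      ∀ z : G, (∀ᵐ ω ∂P, qnorm Q' ((z : E) - x) ω < δ) →
        ∀ᵐ ω ∂P, ω ∈ bad f Q ε x z → ω ∈ bad f Q ε x y := by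
  classical
  let V : Set ENNReal := {r | ∃ y : G, (∀ᵐ ω ∂P, qnorm Q' ((y : E) - x) ω < δ) ∧
    r = P (bad f Q ε x y)}
  have hx : ∀ᵐ ω ∂P, qnorm Q' ((x : E) - x) ω < δ := by
    rw [sub_self]
    filter_upwards [qnorm_zero (P := P) (𝕂 := 𝕂) (E := E) Q'] with ω h
    exact h δ hδ
  have hVne : V.Nonempty := ⟨_, x, hx, rfl⟩
  obtain ⟨u, -, hu, huV⟩ := exists_seq_tendsto_sSup hVne (OrderTop.bddAbove V)
  choose ys hys hysP using huV
  obtain ⟨y, hy1, hy2⟩ := paste_bad hE hG hf Q Q' ε x hδ ys hys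
  have hsup : sSup V ≤ P (bad f Q ε x y) := by
    refine le_of_tendsto' hu fun n => ?_
    rw [hysP n]
    exact measure_mono_ae (hy2 n)
  refine ⟨y, hy1, ?_⟩
  intro z hz
  obtain ⟨w, hw1, hw2⟩ := paste_bad hE hG hf Q Q' ε x hδ (fun n => if n = 0 then y else z)
    (by
      intro k
      by_cases hk : k = 0
      · simp only [hk, if_true]; exact hy1
      · simp only [hk, if_false]; exact hz)
  have hwy : ∀ᵐ ω ∂P, ω ∈ bad f Q ε x y → ω ∈ bad f Q ε x w := by simpa using hw2 0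
  have hwz : ∀ᵐ ω ∂P, ω ∈ bad f Q ε x z → ω ∈ bad f Q ε x w := by simpa using hw2 1
  have hwV : P (bad f Q ε x w) ∈ V := ⟨w, hw1, rfl⟩
  have h1 : P (bad f Q ε x w) ≤ P (bad f Q ε x y) := (le_sSup hwV).trans hsup
  have h2 : P (bad f Q ε x w \ bad f Q ε x y) = 0 := by
    have h3 : bad f Q ε x y ≤ᵐ[P] bad f Q ε x w := hwy
    have h4 : P (bad f Q ε x y) = P (bad f Q ε x w) := le_antisymm (measure_mono_ae h3) h1
    have h5 := measure_inter_add_sdiff (μ := P) (bad f Q ε x w) (measurableSet_bad f Q ε x y)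
    have h6 : P (bad f Q ε x y) ≤ P (bad f Q ε x w ∩ bad f Q ε x y) := by
      apply measure_mono_ae
      filter_upwards [hwy] with ω a b
      exact ⟨a b, b⟩
    have h7 : P (bad f Q ε x y) + P (bad f Q ε x w \ bad f Q ε x y) ≤ P (bad f Q ε x y) + 0 := by
      rw [add_zero]
      calc P (bad f Q ε x y) + P (bad f Q ε x w \ bad f Q ε x y)
          ≤ P (bad f Q ε x w ∩ bad f Q ε x y) + P (bad f Q ε x w \ bad f Q ε x y) := by gcongr
        _ = P (bad f Q ε x w) := h5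
        _ ≤ P (bad f Q ε x y) := h1
    have h8 := (ENNReal.add_le_add_iff_left (measure_ne_top P _)).1 h7
    exact le_antisymm h8 bot_le
  have h9 : ∀ᵐ ω ∂P, ω ∉ bad f Q ε x w \ bad f Q ε x y := measure_eq_zero_iff_ae_notMem.1 h2
  filter_upwards [h9, hwz] with ω a b c
  by_contra hcon
  exact a ⟨b c, hcon⟩

/-- **Theorem.** Let `(E, S)` be a random locally convex module over `L⁰(F, 𝕂)` with base a
probability space `(Ω, F, P)`, with both `E` and the family `S` sigma-stable, let `G ⊆ E` be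
sigma-stable and let `f : G → G` be a sigma-stable map.  If `f` is continuous for (the relative
topology of) `T_{ε,λ}`, then `f` is continuous for (the relative topology of) `T_c`. -/
theorem result {Ω : Type*} [MeasurableSpace Ω] (P : Measure Ω) [IsProbabilityMeasure P]
    {𝕂 : Type*} [RCLike 𝕂] {E : Type*} [AddCommGroup E] [Module (Ω →ₘ[P] 𝕂) E]
    (S : Set (L0Seminorm P 𝕂 E)) (hsep : Separating S)
    (hE : ModuleSigmaStable P 𝕂 E) (hS : FamilySigmaStable S)
    (G : Set E) (hG : SetSigmaStable P 𝕂 G)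
    (f : G → G) (hf : MapSigmaStable P 𝕂 f)
    (hc : @Continuous G G ((topProb S).induced Subtype.val) ((topProb S).induced Subtype.val) f) :
    @Continuous G G ((topC S).induced Subtype.val) ((topC S).induced Subtype.val) f := by
  classical
  -- the degenerate case of an empty family
  by_cases hSne : S.Nonempty
  swap
  · rw [Set.not_nonempty_iff_eq_empty] at hSne
    have hE0 : ∀ x : E, x = 0 := by
      intro x
      apply hsep x
      intro N hN
      rw [hSne] at hN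
      exact absurd hN (Set.notMem_empty _)
    have : f = id := by
      funext x
      apply Subtype.ext
      rw [hE0 (f x : E)]
      exact (hE0 _).symm
    rw [this]
    exact @continuous_id _ ((topC S).induced Subtype.val)
  obtain ⟨N₀, hN₀⟩ := hSne
  unfold topProb at hc
  unfold topC
  rw [cont_iff] at hc ⊢
  rintro x _ ⟨Q, ε, hQ, hε, rfl⟩
  -- constants below `ε` outside of a small set
  have hη : ∀ n : ℕ, ∃ η : ℝ, 0 < η ∧ (P {ω | ε ω < η}).toReal < 1 / (2 * ((n : ℝ) + 1)) := by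
    intro n
    have hanti : Antitone fun k : ℕ => {ω | ε ω < 1 / ((k : ℝ) + 1)} := by
      intro a b hab ω hω
      have hω' : ε ω < 1 / ((b : ℝ) + 1) := hω
      show ε ω < 1 / ((a : ℝ) + 1)
      refine lt_of_lt_of_le hω' ?_
      apply one_div_le_one_div_of_le (by positivity)
      have : (a : ℝ) ≤ b := by exact_mod_cast hab
      linarith
    have hmeas : ∀ k : ℕ, MeasurableSet {ω | ε ω < 1 / ((k : ℝ) + 1)} := fun k =>
      measurableSet_lt (AEEqFun.measurable _) measurable_const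
    have hlim := tendsto_measure_iInter_atTop (μ := P)
      (s := fun k : ℕ => {ω | ε ω < 1 / ((k : ℝ) + 1)})
      (fun k => (hmeas k).nullMeasurableSet) hanti ⟨0, measure_ne_top _ _⟩
    have hzero : P (⋂ k : ℕ, {ω | ε ω < 1 / ((k : ℝ) + 1)}) = 0 := by
      rw [measure_eq_zero_iff_ae_notMem]
      filter_upwards [hε] with ω hω hmem
      obtain ⟨k, hk⟩ := exists_nat_one_div_lt hω
      have := mem_iInter.1 hmem k
      exact absurd (lt_trans hk this) (lt_irrefl _)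
    rw [hzero] at hlim
    have hpos : (0 : ENNReal) < ENNReal.ofReal (1 / (2 * ((n : ℝ) + 1))) := by
      rw [ENNReal.ofReal_pos]
      positivity
    obtain ⟨k, hk⟩ := (hlim.eventually (gt_mem_nhds hpos)).exists
    refine ⟨1 / ((k : ℝ) + 1), by positivity, ?_⟩
    exact (ENNReal.lt_ofReal_iff_toReal_lt (measure_ne_top _ _)).1 hk
  choose η hηpos hηP using hη
  -- continuity for `T_{ε,λ}` gives `Q'_n`, `δ_n`
  have hcont : ∀ n : ℕ, ∃ (Q' : Finset (L0Seminorm P 𝕂 E)) (δ : ℝ), Q'.Nonempty ∧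
      (↑Q' : Set (L0Seminorm P 𝕂 E)) ⊆ S ∧ 0 < δ ∧
      ∀ y : G, (∀ᵐ ω ∂P, qnorm Q' ((y : E) - x) ω < δ) →
        (P (bad f Q ε x y)).toReal < 1 / ((n : ℝ) + 1) := by
    intro n
    have hlam : (0 : ℝ) < 1 / (2 * ((n : ℝ) + 1)) := by positivity
    have hlam1 : (1 : ℝ) / (2 * ((n : ℝ) + 1)) < 1 := by
      rw [div_lt_one (by positivity)]
      have : (0 : ℝ) ≤ n := Nat.cast_nonneg n
      linarith
    obtain ⟨_, ⟨Q', δ, l, hQ', hδ, hl, hl1, rfl⟩, hU⟩ :=
      hc x (nbhdProb Q (η n) (1 / (2 * ((n : ℝ) + 1)))) ⟨Q, η n, _, hQ, hηpos n, hlam, hlam1, rfl⟩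
    refine ⟨insert N₀ Q', δ, Finset.insert_nonempty _ _, ?_, hδ, ?_⟩
    · rw [Finset.coe_insert]
      exact Set.insert_subset hN₀ hQ'
    · intro y hy
      have hyU : ((y : E) - x) ∈ nbhdProb Q' δ l := by
        show 1 - l < (P {ω | qnorm Q' ((y : E) - x) ω < δ}).toReal
        have : P {ω | qnorm Q' ((y : E) - x) ω < δ} = 1 := by
          rw [prob_compl_eq_zero_iff (measurableSet_qlt Q' _ δ) |>.symm]
          filter_upwards [hy, qnorm_mono (Finset.subset_insert N₀ Q') ((y : E) - x)] with ω h1 h2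
          exact h2 δ hδ h1
        rw [this]
        simp [hl]
      have h1 : 1 - 1 / (2 * ((n : ℝ) + 1)) <
          (P {ω | qnorm Q ((f y : E) - f x) ω < η n}).toReal := hU y hyU
      have h2 : (P (bad f Q ε x y)).toReal ≤
          (P ({ω | qnorm Q ((f y : E) - f x) ω < η n}ᶜ ∪ {ω | ε ω < η n})).toReal := by
        apply real_mono_ae
        filter_upwards with ω hω
        by_contra hcon
        rw [mem_union, not_or] at hcon
        obtain ⟨h3, h4⟩ := hcon
        have h3' : qnorm Q ((f y : E) - f x) ω < η n := by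
          by_contra h5
          exact h3 h5
        have h4' : η n ≤ ε ω := not_lt.1 h4
        have h5 : ε ω ≤ qnorm Q ((f y : E) - f x) ω := hω
        linarith
      have h3 : (P ({ω | qnorm Q ((f y : E) - f x) ω < η n}ᶜ ∪ {ω | ε ω < η n})).toReal ≤
          (P ({ω | qnorm Q ((f y : E) - f x) ω < η n}ᶜ)).toReal + (P {ω | ε ω < η n}).toReal := by
        rw [← ENNReal.toReal_add (measure_ne_top _ _) (measure_ne_top _ _)]
        exact ENNReal.toReal_mono (by simp [measure_ne_top]) (measure_union_le _ _)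
      have h4 : (P ({ω | qnorm Q ((f y : E) - f x) ω < η n}ᶜ)).toReal =
          1 - (P {ω | qnorm Q ((f y : E) - f x) ω < η n}).toReal := by
        rw [prob_compl_eq_one_sub (measurableSet_qlt Q _ _),
          ENNReal.toReal_sub_of_le prob_le_one ENNReal.one_ne_top]
        simp
      have h5 := hηP n
      have h6 : 1 / (2 * ((n : ℝ) + 1)) + 1 / (2 * ((n : ℝ) + 1)) = 1 / ((n : ℝ) + 1) := by
        field_simp
        ring
      linarith
  choose Q' δ hQ'ne hQ'S hδ hQ'bad using hcont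
  -- maximal bad sets
  have hmax := fun n => exists_max_bad hE hG hf Q (Q' n) ε x (hδ n)
  choose ymax hymax1 hymax2 using hmax
  let C : ℕ → Set Ω := fun n => (bad f Q ε x (ymax n))ᶜ
  have hCm : ∀ n, MeasurableSet (C n) := fun n => (measurableSet_bad f Q ε x (ymax n)).compl
  let A : ℕ → Set Ω := fun n => match n with
    | 0 => (⋃ k, C k)ᶜ
    | (k + 1) => disjointed C k
  have hA : IsPartition A := by
    constructor
    · intro n
      match n with
      | 0 => exact (MeasurableSet.iUnion hCm).compl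
      | (k + 1) => exact MeasurableSet.disjointed hCm k
    · intro i j hij
      match i, j with
      | 0, 0 => exact absurd rfl hij
      | 0, (j + 1) =>
        show Disjoint (⋃ k, C k)ᶜ (disjointed C j)
        rw [Set.disjoint_left]
        intro ω h1 h2
        exact h1 (mem_iUnion.2 ⟨j, disjointed_subset C j h2⟩)
      | (i + 1), 0 =>
        show Disjoint (disjointed C i) (⋃ k, C k)ᶜ
        rw [Set.disjoint_left]
        intro ω h2 h1
        exact h1 (mem_iUnion.2 ⟨i, disjointed_subset C i h2⟩)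
      | (i + 1), (j + 1) =>
        exact disjoint_disjointed C (fun h => hij (by rw [h]))
    · apply eq_univ_of_forall
      intro ω
      by_cases h : ω ∈ ⋃ k, C k
      · rw [← iUnion_disjointed] at h
        obtain ⟨k, hk⟩ := mem_iUnion.1 h
        exact mem_iUnion.2 ⟨k + 1, hk⟩
      · exact mem_iUnion.2 ⟨0, h⟩
  have hA0 : P (A 0) = 0 := by
    have h1 : ∀ n : ℕ, (P (A 0)).toReal ≤ 1 / ((n : ℝ) + 1) := by
      intro n
      have h2 : (P (A 0)).toReal ≤ (P (bad f Q ε x (ymax n))).toReal := by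
        apply real_mono_ae
        filter_upwards with ω hω
        by_contra hcon
        exact hω (mem_iUnion.2 ⟨n, hcon⟩)
      exact h2.trans (hQ'bad n _ (hymax1 n)).le
    have h3 : (P (A 0)).toReal ≤ 0 := by
      apply ge_of_tendsto' tendsto_one_div_add_atTop_nhds_zero_nat
      exact h1
    have h4 : (P (A 0)).toReal = 0 := le_antisymm h3 ENNReal.toReal_nonneg
    rcases (ENNReal.toReal_eq_zero_iff _).1 h4 with h5 | h5
    · exact h5
    · exact absurd h5 (measure_ne_top _ _)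
  -- the glued seminorm
  obtain ⟨N, hNS, hN⟩ := hS A hA (fun n => Q' (n - 1)) (fun n => ⟨hQ'ne _, hQ'S _⟩)
  -- the glued radius
  have hidx : ∀ ω, ∃ n, ω ∈ A n := by
    intro ω
    have : ω ∈ ⋃ n, A n := by rw [hA.cover]; trivial
    exact mem_iUnion.1 this
  choose idx hidx using hidx
  have hidx_eq : ∀ ω n, ω ∈ A n → idx ω = n := by
    intro ω n hn
    by_contra hne
    exact Set.disjoint_left.1 (hA.disj hne) (hidx ω) hn
  have hidx_meas : Measurable idx := by
    apply measurable_to_countable'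
    intro n
    have : idx ⁻¹' {n} = A n := by
      ext ω
      constructor
      · intro h
        have h' : idx ω = n := h
        rw [← h']
        exact hidx ω
      · intro h
        exact hidx_eq ω n h
    rw [this]
    exact hA.meas n
  let ρ : Ω → ℝ := fun ω => δ (idx ω - 1)
  have hρm : Measurable ρ := (measurable_from_top (f := fun n : ℕ => δ (n - 1))).comp hidx_meas
  let ρ' : Ω →ₘ[P] ℝ := AEEqFun.mk ρ hρm.aestronglyMeasurable
  have hρ' : ∀ᵐ ω ∂P, ρ' ω = ρ ω := AEEqFun.coeFn_mk _ _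
  refine ⟨nbhdC {N} ρ', ⟨{N}, ρ', ?_, ?_, rfl⟩, ?_⟩
  · simpa using hNS
  · filter_upwards [hρ'] with ω hω
    rw [hω]
    exact hδ _
  intro y hy
  have hy' : ∀ᵐ ω ∂P, qnorm {N} ((y : E) - x) ω < ρ' ω := hy
  show ∀ᵐ ω ∂P, qnorm Q ((f y : E) - f x) ω < ε ω
  -- value of the glued seminorm
  have hNval : ∀ n, ∀ᵐ ω ∂P, ω ∈ A n →
      N.toFun ((y : E) - x) ω = qnorm (Q' (n - 1)) ((y : E) - x) ω := by
    intro n
    have h1 := hN ((y : E) - x) n
    filter_upwards [AEEqFun.coeFn_mul (ind P ℝ (A n) (hA.meas n)) (N.toFun ((y : E) - x)),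
      AEEqFun.coeFn_mul (ind P ℝ (A n) (hA.meas n)) (qnorm (Q' (n - 1)) ((y : E) - x)),
      ind_coe (P := P) (𝕂 := ℝ) (hA.meas n)] with ω a b c hω
    rw [h1, b, Pi.mul_apply, Pi.mul_apply, c] at a
    simpa [hω] using a.symm
  have hstep : ∀ k : ℕ, ∀ᵐ ω ∂P, ω ∈ A (k + 1) → qnorm Q ((f y : E) - f x) ω < ε ω := by
    intro k
    let xs : ℕ → G := fun m => if m = k + 1 then y else x
    obtain ⟨y', hy'p⟩ := exists_pasting (P := P) (𝕂 := 𝕂) hE hG hA xs
    have hfy' := hf A hA xs y' hy'p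
    have hclose : ∀ᵐ ω ∂P, qnorm (Q' k) ((y' : E) - x) ω < δ k := by
      have h1 := pasting_close (P := P) (𝕂 := 𝕂) hy'p (x : E) (Q' k)
      filter_upwards [h1, hy', hρ', hNval (k + 1), qnorm_lt_iff ({N} : Finset _) ((y : E) - x),
        qnorm_zero (P := P) (𝕂 := 𝕂) (E := E) (Q' k)] with ω a b c d e g
      rw [a _ (hidx ω)]
      by_cases hi : idx ω = k + 1
      · have hωA : ω ∈ A (k + 1) := by rw [← hi]; exact hidx ω
        have hxs : xs (idx ω) = y := by
          simp only [xs, hi, if_true]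
        have hρω : ρ ω = δ k := by
          simp only [ρ, hi]
          rfl
        rw [hxs]
        rw [c, hρω] at b
        have := (e (δ k) (hδ k)).1 b N (Finset.mem_singleton_self N)
        rw [d hωA] at this
        exact this
      · have hxs : xs (idx ω) = x := by
          simp only [xs, hi, if_false]
        rw [hxs, sub_self]
        exact g _ (hδ k)
    have hb := hymax2 k y' hclose
    have h2 := pasting_close (P := P) (𝕂 := 𝕂) hfy' (f x : E) Q
    filter_upwards [hb, h2] with ω a b hω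
    have hωC : ω ∈ C k := disjointed_subset C k hω
    have h3 : ω ∉ bad f Q ε x y' := fun h => hωC (a h)
    have h4 := b (k + 1) hω
    have hxs : xs (k + 1) = y := by simp only [xs, if_true]
    rw [hxs] at h4
    rw [← h4]
    by_contra hcon
    exact h3 (not_lt.1 hcon)
  have hall := (ae_all_iff (μ := P)).2 hstep
  have hA0' : ∀ᵐ ω ∂P, ω ∉ A 0 := measure_eq_zero_iff_ae_notMem.1 hA0
  filter_upwards [hall, hA0'] with ω a b
  obtain ⟨n, hn⟩ : ∃ n, ω ∈ A n := ⟨idx ω, hidx ω⟩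
  match n with
  | 0 => exact absurd hn b
  | (k + 1) => exact a k hn

end Main

end Pool.Agent.Results.MP_6f9abf_an.TcContinuity
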